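import Mathlib

/-! # The algebraic part of the two-point inequality -/

set_option autoImplicit false

namespace Pool.Agent.helper30.DN

lemma alg_hel (t q : ℝ) (hq : 0 ≤ q) (ht : q ≤ t) :
    (t - q) ^ 2 ≤ 2 * (t + q) * (√t - √q) ^ 2 := by
  have h1 : √t ^ 2 = t := Real.sq_sqrt (by linarith)
  have h2 : √q ^ 2 = q := Real.sq_sqrt hq
  have h3 : (t - q) = (√t - √q) * (√t + √q) := by
    calc t - q = √t ^ 2 - √q ^ 2 := by rw [h1, h2]
      _ = (√t - √q) * (√t + √q) := by ring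
  have h4 : (√t + √q) ^ 2 ≤ 2 * (t + q) := by
    have : (√t + √q) ^ 2 ≤ 2 * (√t ^ 2 + √q ^ 2) := by nlinarith [sq_nonneg (√t - √q)]
    rwa [h1, h2] at this
  rw [h3, mul_pow, mul_comm]
  exact mul_le_mul_of_nonneg_right h4 (sq_nonneg _)

/-- the case `t ≥ 1/2` -/
lemma alg_big (t q : ℝ) (hq : 0 ≤ q) (hq2 : q ≤ 1 / 2) (ht : 1 / 2 ≤ t) :
    (1 - 2 * q) ^ 2 ≤ 8 * (√t - √q) ^ 2 := by
  have h1 : √(1 / 2 : ℝ) ^ 2 = 1 / 2 := Real.sq_sqrt (by norm_num)
  have h2 : √q ^ 2 = q := Real.sq_sqrt hq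
  have h3 : √q ≤ √(1 / 2 : ℝ) := Real.sqrt_le_sqrt hq2
  have h4 : √(1 / 2 : ℝ) ≤ √t := Real.sqrt_le_sqrt ht
  have h5 : 0 ≤ √q := Real.sqrt_nonneg _
  obtain ⟨a, ha⟩ : ∃ a, a = √(1 / 2 : ℝ) := ⟨_, rfl⟩
  obtain ⟨b, hb⟩ : ∃ b, b = √q := ⟨_, rfl⟩
  rw [← ha] at h1 h3 h4
  rw [← hb] at h2 h3 h5 ⊢
  have e : (1 - 2 * q) = 2 * ((a - b) * (a + b)) := by
    rw [← h2]
    have : (1 : ℝ) = 2 * a ^ 2 := by rw [h1]; norm_num
    rw [this]; ring
  have h6 : (a + b) ^ 2 ≤ 2 := by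
    have : (a + b) ^ 2 ≤ (2 * a) ^ 2 := by
      have h8 : 0 ≤ a + b := by linarith
      exact pow_le_pow_left₀ h8 (by linarith) 2
    calc (a + b) ^ 2 ≤ (2 * a) ^ 2 := this
      _ = 4 * a ^ 2 := by ring
      _ = 2 := by rw [h1]; norm_num
  have h7 : (a - b) ^ 2 ≤ (√t - b) ^ 2 := pow_le_pow_left₀ (by linarith) (by linarith) 2
  rw [e]
  calc (2 * ((a - b) * (a + b))) ^ 2 = 4 * (a - b) ^ 2 * (a + b) ^ 2 := by ring
    _ ≤ 4 * (a - b) ^ 2 * 2 := by
        apply mul_le_mul_of_nonneg_left h6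
        positivity
    _ ≤ 8 * (√t - b) ^ 2 := by linarith

theorem alg_core (κ q t S Z : ℝ) (hκ0 : 0 < κ) (hκ1 : κ ≤ 1) (hq0 : 0 ≤ q) (hq : q ≤ 1 / 2)
    (ht0 : 0 ≤ t) (hS : 1 ≤ S) (hQ : q ≤ S * t) (hZ0 : 0 ≤ Z)
    (hZ : ∀ lam : ℝ, 0 < lam → lam ≤ 1 →
      (1 - lam) * (S * (1 - t - t / lam) + q * (1 - lam) / lam) ≤ Z) :
    (1 - κ) * (1 - 2 * q) ^ 2 ≤ Z + 400 / κ ^ 2 * (√t - √q) ^ 2 := by
  have hB : (400 : ℝ) ≤ 400 / κ ^ 2 := by
    rw [le_div_iff₀ (by positivity)]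
    nlinarith
  have hB0 : 0 ≤ 400 / κ ^ 2 * (√t - √q) ^ 2 := by positivity
  obtain ⟨w, hw⟩ : ∃ w, w = (√t - √q) ^ 2 := ⟨_, rfl⟩
  have hw0 : 0 ≤ w := by rw [hw]; positivity
  rw [← hw] at hB0 ⊢
  rcases eq_or_lt_of_le ht0 with h0 | h0
  · -- t = 0
    have hq1 : q = 0 := by rw [← h0, mul_zero] at hQ; linarith
    have h1 := hZ κ hκ0 hκ1
    rw [← h0, hq1] at h1
    simp only [zero_div, sub_zero, mul_one, zero_mul, add_zero] at h1
    rw [hq1]
    have h2 : (1 - κ) * 1 ≤ (1 - κ) * S := mul_le_mul_of_nonneg_left hS (by linarith)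
    linarith
  rcases le_or_gt (1 / 2) t with h1 | h1
  · have h2 := alg_big t q hq0 hq h1
    rw [← hw] at h2
    have h3 : (1 - κ) * (1 - 2 * q) ^ 2 ≤ 1 * (1 - 2 * q) ^ 2 := by
      apply mul_le_mul_of_nonneg_right (by linarith) (by positivity)
    have h4 : 400 * w ≤ 400 / κ ^ 2 * w := mul_le_mul_of_nonneg_right hB hw0
    linarith
  -- 0 < t < 1/2
  have h1t : 0 < 1 - t := by linarith
  have hx : q * (1 - 2 * t) ^ 2 / (t * (1 - t)) ≤ Z := by
    have h2 := hZ (t / (1 - t)) (by positivity) (by rw [div_le_one h1t]; linarith)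
    refine le_trans (le_of_eq ?_) h2
    field_simp
    ring
  rcases le_or_gt t q with h2 | h2
  · -- t ≤ q
    have h3 : (1 - 2 * t) ^ 2 ≤ q * (1 - 2 * t) ^ 2 / (t * (1 - t)) := by
      rw [le_div_iff₀ (by positivity)]
      have h4 : t * (1 - t) ≤ q := by nlinarith
      have h5 : 0 ≤ (1 - 2 * t) ^ 2 := by positivity
      nlinarith
    have h4 : (1 - 2 * q) ^ 2 ≤ (1 - 2 * t) ^ 2 := pow_le_pow_left₀ (by linarith) (by linarith) 2
    have h5 : (1 - κ) * (1 - 2 * q) ^ 2 ≤ 1 * (1 - 2 * q) ^ 2 := by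
      apply mul_le_mul_of_nonneg_right (by linarith) (by positivity)
    linarith
  have hel := alg_hel t q hq0 h2.le
  rw [← hw] at hel
  obtain ⟨τ, hτ⟩ : ∃ τ, τ = t - q := ⟨_, rfl⟩
  have hτ0 : 0 < τ := by linarith
  obtain ⟨u, hu⟩ : ∃ u, u = 1 - 2 * q := ⟨_, rfl⟩
  have hu0 : 0 ≤ u := by linarith
  rw [← hτ] at hel
  rw [← hu]
  rcases le_or_gt (1 / 4) q with h3 | h3
  · -- q ≥ 1/4
    have h4 : (1 - 2 * t) ^ 2 ≤ q * (1 - 2 * t) ^ 2 / (t * (1 - t)) := by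
      rw [le_div_iff₀ (by positivity)]
      have h4 : t * (1 - t) ≤ q := by nlinarith [sq_nonneg (1 - 2 * t)]
      have h5 : 0 ≤ (1 - 2 * t) ^ 2 := by positivity
      nlinarith
    have h5 : (u - 2 * τ) ^ 2 ≤ Z := by
      have e : u - 2 * τ = 1 - 2 * t := by rw [hu, hτ]; ring
      rw [e]
      linarith
    have h6 : τ ^ 2 ≤ 2 * w := by
      refine le_trans hel ?_
      apply mul_le_mul_of_nonneg_right _ hw0
      linarith
    have h7 : 4 / κ * τ ^ 2 ≤ 400 / κ ^ 2 * w := by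
      have h8 : 4 / κ * τ ^ 2 ≤ 4 / κ * (2 * w) := mul_le_mul_of_nonneg_left h6 (by positivity)
      have h9 : 8 / κ ≤ 400 / κ ^ 2 := by
        rw [div_le_div_iff₀ hκ0 (by positivity)]
        nlinarith
      have h10 : 8 / κ * w ≤ 400 / κ ^ 2 * w := mul_le_mul_of_nonneg_right h9 hw0
      have h11 : 4 / κ * (2 * w) = 8 / κ * w := by ring
      linarith
    have h8 : 0 ≤ κ * u ^ 2 - 4 * u * τ + 4 / κ * τ ^ 2 := by
      have e : κ * u ^ 2 - 4 * u * τ + 4 / κ * τ ^ 2 = (κ * u - 2 * τ) ^ 2 / κ := by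
        field_simp
        ring
      rw [e]
      positivity
    nlinarith [sq_nonneg τ]
  · -- q < 1/4
    have hu1 : 1 / 2 < u := by linarith
    have hu2 : u ≤ 1 := by linarith
    obtain ⟨lam, hlam⟩ : ∃ lam, lam = 2 * t + κ * u / 2 := ⟨_, rfl⟩
    have hκu : 0 < κ * u := by positivity
    have hl0 : 0 < lam := by rw [hlam]; positivity
    have hl1 : κ / 4 ≤ lam := by
      rw [hlam]
      nlinarith
    have hl2 : lam ≤ 2 := by
      rw [hlam]
      nlinarith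
    have hl3 : 2 * t ≤ lam := by rw [hlam]; linarith
    have h4 : u - lam * u - τ / lam ≤ Z := by
      rcases le_or_gt 1 lam with h5 | h5
      · have h6 : u ≤ lam * u := by nlinarith
        have h7 : 0 ≤ τ / lam := by positivity
        linarith
      · have h6 := hZ lam hl0 h5.le
        have h7 : 0 ≤ 1 - t - t / lam := by
          have : t / lam ≤ 1 / 2 := by
            rw [div_le_iff₀ hl0]
            linarith
          linarith
        have h8 : 1 - t - t / lam ≤ S * (1 - t - t / lam) := by nlinarith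
        have h9 : (1 - lam) * ((1 - t - t / lam) + q * (1 - lam) / lam) ≤
            (1 - lam) * (S * (1 - t - t / lam) + q * (1 - lam) / lam) :=
          mul_le_mul_of_nonneg_left (by linarith) (by linarith)
        have h10 : (1 - lam) * ((1 - t - t / lam) + q * (1 - lam) / lam) =
            u - lam * u - τ / lam + lam * τ := by
          rw [hu, hτ]
          field_simp
          ring
        have h11 : 0 ≤ lam * τ := by positivity
        linarith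
    -- the final estimate
    have h5 : u - lam * u = u ^ 2 - 2 * τ * u - κ * u ^ 2 / 2 := by
      have hq' : q = (1 - u) / 2 := by rw [hu]; ring
      have ht' : t = τ + (1 - u) / 2 := by rw [hτ, ← hq']; ring
      rw [hlam, ht']
      ring
    have h6 : 2 * τ * u ≤ 4 * (τ / lam) := by
      have : 4 * (τ / lam) = 4 * τ / lam := by ring
      rw [this, le_div_iff₀ hl0]
      have : 2 * τ * u * lam ≤ 2 * τ * 1 * 2 := by
        gcongr
      linarith
    have h7 : τ ^ 2 ≤ 2 * lam * w := by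
      refine le_trans hel ?_
      apply mul_le_mul_of_nonneg_right _ hw0
      linarith
    have h8 : 200 / κ ^ 2 * (τ ^ 2 / lam) ≤ 400 / κ ^ 2 * w := by
      have h9 : τ ^ 2 / lam ≤ 2 * w := by
        rw [div_le_iff₀ hl0]
        linarith
      have h10 : 200 / κ ^ 2 * (τ ^ 2 / lam) ≤ 200 / κ ^ 2 * (2 * w) :=
        mul_le_mul_of_nonneg_left h9 (by positivity)
      have h11 : 200 / κ ^ 2 * (2 * w) = 400 / κ ^ 2 * w := by ring
      linarith
    have h9 : 5 * (τ / lam) ≤ κ * u ^ 2 / 2 + 200 / κ ^ 2 * (τ ^ 2 / lam) := by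
      have e : κ * u ^ 2 / 2 + 200 / κ ^ 2 * (τ ^ 2 / lam) - 5 * (τ / lam) =
          (κ ^ 3 * u ^ 2 * lam / 2 + 200 * τ ^ 2 - 5 * κ ^ 2 * τ) / (κ ^ 2 * lam) := by
        field_simp
      have h10 : 0 ≤ (κ ^ 3 * u ^ 2 * lam / 2 + 200 * τ ^ 2 - 5 * κ ^ 2 * τ) := by
        have h11 : κ ^ 3 * (1 / 4) * (κ / 4) / 2 ≤ κ ^ 3 * u ^ 2 * lam / 2 := by
          have hu3 : (1 : ℝ) / 4 ≤ u ^ 2 := by nlinarith
          gcongr
        nlinarith [sq_nonneg (κ ^ 2 - 80 * τ), sq_nonneg (κ ^ 2 - 40 * τ)]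
      have h12 : 0 ≤ (κ ^ 3 * u ^ 2 * lam / 2 + 200 * τ ^ 2 - 5 * κ ^ 2 * τ) / (κ ^ 2 * lam) := by
        positivity
      linarith
    nlinarith

end Pool.Agent.helper30.DN
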