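import Pool.Agent.helper30.DN.Ent
import Pool.Agent.helper30.DN.Alg

/-! # The two-point inequality -/

set_option autoImplicit false

namespace Pool.Agent.helper30.DN

lemma kl_term (a b : ℝ) (ha : 0 ≤ a) (hb : 0 < a → 0 < b) :
    2 * a - 2 * √(a * b) ≤ a * Real.log (a / b) := by
  rcases eq_or_lt_of_le ha with h | h
  · rw [← h]; simp
  have hb' := hb h
  have h1 : Real.log (b / a) = 2 * Real.log √(b / a) := by
    rw [Real.log_sqrt (by positivity)]; ring
  have h2 : Real.log √(b / a) ≤ √(b / a) - 1 := Real.log_le_sub_one_of_pos (by positivity)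
  have h3 : Real.log (a / b) = - Real.log (b / a) := by
    rw [← Real.log_inv, inv_div]
  have h4 : a * √(b / a) = √(a * b) := by
    have : a * b = a ^ 2 * (b / a) := by field_simp
    rw [this, Real.sqrt_mul (by positivity), Real.sqrt_sq ha]
  rw [h3, h1]
  have h5 : a * Real.log √(b / a) ≤ a * (√(b / a) - 1) := mul_le_mul_of_nonneg_left h2 ha
  nlinarith

lemma kl_ge (q t : ℝ) (hq0 : 0 ≤ q) (hq1 : q < 1) (ht0 : 0 ≤ t) (ht1 : t < 1) (h : 0 < q → 0 < t) :
    (√t - √q) ^ 2 ≤ q * Real.log (q / t) + (1 - q) * Real.log ((1 - q) / (1 - t)) := by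
  have h1 := kl_term q t hq0 h
  have h2 := kl_term (1 - q) (1 - t) (by linarith) (fun _ => by linarith)
  have h3 : √t ^ 2 = t := Real.sq_sqrt ht0
  have h4 : √q ^ 2 = q := Real.sq_sqrt hq0
  have h5 : √(1 - t) ^ 2 = 1 - t := Real.sq_sqrt (by linarith)
  have h6 : √(1 - q) ^ 2 = 1 - q := Real.sq_sqrt (by linarith)
  rw [Real.sqrt_mul hq0] at h1
  rw [Real.sqrt_mul (by linarith)] at h2
  nlinarith [sq_nonneg (√(1 - t) - √(1 - q))]

theorem two_point (κ q P Q Z : ℝ) (hκ0 : 0 < κ) (hκ1 : κ ≤ 1) (hq0 : 0 ≤ q) (hq : q ≤ 1 / 2)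
    (hP : 1 - q ≤ P) (hQ : q ≤ Q) (hZ0 : 0 ≤ Z)
    (hZ : ∀ lam : ℝ, 0 < lam → lam ≤ 1 → (1 - lam) * P - (1 - lam) / lam * Q + q * (1 - lam) ^ 2 / lam ≤ Z) :
    (1 - κ) * (1 - Real.binEntropy q / Real.log 2) ≤ Z + 400 / κ ^ 2 *
      (q * Real.log (q / (Q / (P + Q))) + (1 - q) * Real.log ((1 - q) / (1 - Q / (P + Q)))) := by
  have hS : 1 ≤ P + Q := by linarith
  have hS0 : 0 < P + Q := by linarith
  have hP0 : 0 < P := by linarith
  obtain ⟨t, ht⟩ : ∃ t, t = Q / (P + Q) := ⟨_, rfl⟩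
  have hQt : Q = (P + Q) * t := by rw [ht]; field_simp
  have hPt : P = (P + Q) * (1 - t) := by rw [ht]; field_simp; ring
  have ht0 : 0 ≤ t := by rw [ht]; exact div_nonneg (by linarith) hS0.le
  have ht1 : t < 1 := by rw [ht, div_lt_one hS0]; linarith
  have hqt : 0 < q → 0 < t := by
    intro h
    rw [ht]
    exact div_pos (by linarith) hS0
  rw [← ht]
  have h1 := kl_ge q t hq0 (by linarith) ht0 ht1 hqt
  have h2 := alg_core κ q t (P + Q) Z hκ0 hκ1 hq0 hq ht0 hS (by rw [← hQt]; exact hQ) hZ0 (by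
    intro lam hl0 hl1
    refine le_trans (le_of_eq ?_) (hZ lam hl0 hl1)
    have e1 : (P + Q) * (1 - t - t / lam) = P - Q / lam := by
      have : (P + Q) * (1 - t - t / lam) = (P + Q) * (1 - t) - (P + Q) * t / lam := by ring
      rw [this, ← hQt, ← hPt]
    rw [e1]
    field_simp)
  have h3 := entropy_ge q hq0 hq
  have hl2 : 0 < Real.log 2 := Real.log_pos (by norm_num)
  have h4 : 1 - Real.binEntropy q / Real.log 2 ≤ (1 - 2 * q) ^ 2 := by
    have : 4 * q * (1 - q) ≤ Real.binEntropy q / Real.log 2 := by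
      rw [le_div_iff₀ hl2]; exact h3
    nlinarith
  have h5 : (1 - κ) * (1 - Real.binEntropy q / Real.log 2) ≤ (1 - κ) * (1 - 2 * q) ^ 2 :=
    mul_le_mul_of_nonneg_left h4 (by linarith)
  have h6 : 400 / κ ^ 2 * (√t - √q) ^ 2 ≤ 400 / κ ^ 2 *
      (q * Real.log (q / t) + (1 - q) * Real.log ((1 - q) / (1 - t))) :=
    mul_le_mul_of_nonneg_left h1 (by positivity)
  linarith

/-- the functional -/
noncomputable def Fn (κ d s M : ℝ) : ℝ :=
  2 * s * ((1 - κ) * (d - Real.logb 2 s) - 400 / κ ^ 2 * Real.log (M / s))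

theorem step (κ d s0 s1 M0 M1 Δ : ℝ) (hκ0 : 0 < κ) (hκ1 : κ ≤ 1) (h01 : s1 ≤ s0) (h1 : 0 ≤ s1) (h0 : 0 < s0)
    (hM0 : s0 ≤ M0) (hM1 : s1 ≤ M1) (hΔ0 : 0 ≤ Δ)
    (hΔ : ∀ lam : ℝ, 0 < lam → lam ≤ 1 →
      (1 - lam) * M0 - (1 - lam) / lam * M1 + s1 * (1 - lam) ^ 2 / lam ≤ Δ) :
    Fn κ (d + 1) (s0 + s1) (M0 + M1) ≤ Fn κ d s0 M0 + Fn κ d s1 M1 + 2 * Δ := by
  obtain ⟨s, hs⟩ : ∃ s, s = s0 + s1 := ⟨_, rfl⟩
  obtain ⟨M, hM⟩ : ∃ M, M = M0 + M1 := ⟨_, rfl⟩
  have hs0 : 0 < s := by linarith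
  have hM00 : 0 < M0 := by linarith
  have hM' : 0 < M := by linarith
  have hl2 : 0 < Real.log 2 := Real.log_pos (by norm_num)
  have hp : 1 - s1 / s = s0 / s := by rw [hs]; field_simp; ring
  have h2 := two_point κ (s1 / s) (M0 / s) (M1 / s) (Δ / s) hκ0 hκ1 (by positivity)
    (by rw [div_le_iff₀ hs0]; linarith) (by rw [hp]; gcongr) (by gcongr) (by positivity) (by
      intro lam hl0 hl1
      have h3 := hΔ lam hl0 hl1
      have e : (1 - lam) * (M0 / s) - (1 - lam) / lam * (M1 / s) + s1 / s * (1 - lam) ^ 2 / lam =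
          ((1 - lam) * M0 - (1 - lam) / lam * M1 + s1 * (1 - lam) ^ 2 / lam) / s := by ring
      rw [e]
      gcongr)
  have ht : M1 / s / (M0 / s + M1 / s) = M1 / M := by rw [hM]; field_simp
  have ht' : 1 - M1 / M = M0 / M := by
    rw [eq_div_iff hM'.ne', sub_mul, one_mul, div_mul_cancel₀ _ hM'.ne', hM]; ring
  rw [ht, ht', hp] at h2
  -- multiply by 2 s
  have h3 : 2 * s * ((1 - κ) * (1 - Real.binEntropy (s1 / s) / Real.log 2)) ≤
      2 * s * (Δ / s + 400 / κ ^ 2 * (s1 / s * Real.log (s1 / s / (M1 / M)) +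
        s0 / s * Real.log (s0 / s / (M0 / M)))) := mul_le_mul_of_nonneg_left h2 (by positivity)
  have e0 : s0 * Real.log (s0 / s / (M0 / M)) = s0 * (Real.log (M / s) - Real.log (M0 / s0)) := by
    rw [← Real.log_div (by positivity) (by positivity)]
    have : s0 / s / (M0 / M) = M / s / (M0 / s0) := by field_simp
    rw [this]
  have e1 : s1 * Real.log (s1 / s / (M1 / M)) = s1 * (Real.log (M / s) - Real.log (M1 / s1)) := by
    rcases eq_or_lt_of_le h1 with h | h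
    · rw [← h]; simp
    · have hM11 : 0 < M1 := by linarith
      rw [← Real.log_div (by positivity) (by positivity)]
      have : s1 / s / (M1 / M) = M / s / (M1 / s1) := by field_simp
      rw [this]
  have e2 : s * (Real.binEntropy (s1 / s) / Real.log 2) =
      s0 * (Real.logb 2 s - Real.logb 2 s0) + s1 * (Real.logb 2 s - Real.logb 2 s1) := by
    unfold Real.binEntropy
    rw [hp]
    have f0 : s0 * Real.log (s0 / s)⁻¹ = s0 * (Real.log s - Real.log s0) := by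
      rw [inv_div, Real.log_div (by positivity) (by positivity)]
    have f1 : s1 * Real.log (s1 / s)⁻¹ = s1 * (Real.log s - Real.log s1) := by
      rcases eq_or_lt_of_le h1 with h | h
      · rw [← h]; simp
      · rw [inv_div, Real.log_div (by positivity) (by positivity)]
    unfold Real.logb
    calc s * ((s1 / s * Real.log (s1 / s)⁻¹ + s0 / s * Real.log (s0 / s)⁻¹) / Real.log 2)
        = (s1 * Real.log (s1 / s)⁻¹ + s0 * Real.log (s0 / s)⁻¹) / Real.log 2 := by field_simp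
      _ = _ := by rw [f0, f1]; ring
  have e3 : 2 * s * ((1 - κ) * (1 - Real.binEntropy (s1 / s) / Real.log 2)) =
      2 * (1 - κ) * (s - s * (Real.binEntropy (s1 / s) / Real.log 2)) := by ring
  have e4 : 2 * s * (Δ / s + 400 / κ ^ 2 * (s1 / s * Real.log (s1 / s / (M1 / M)) +
        s0 / s * Real.log (s0 / s / (M0 / M)))) =
      2 * Δ + 2 * (400 / κ ^ 2) * (s1 * Real.log (s1 / s / (M1 / M)) + s0 * Real.log (s0 / s / (M0 / M))) := by
    field_simp
  rw [e3, e4, e2, e0, e1] at h3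
  unfold Fn
  rw [← hs, ← hM]
  clear e0 e1 e2 e3 e4 h2 ht ht' hp
  generalize Real.logb 2 s = ls at h3 ⊢
  generalize Real.logb 2 s0 = l0 at h3 ⊢
  generalize Real.logb 2 s1 = l1 at h3 ⊢
  generalize Real.log (M / s) = LM at h3 ⊢
  generalize Real.log (M0 / s0) = L0 at h3 ⊢
  generalize Real.log (M1 / s1) = L1 at h3 ⊢
  generalize 400 / κ ^ 2 = B at h3 ⊢
  have key : 2 * s0 * ((1 - κ) * (d - l0) - B * L0) + 2 * s1 * ((1 - κ) * (d - l1) - B * L1) + 2 * Δ -
      2 * s * ((1 - κ) * (d + 1 - ls) - B * LM) =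
      2 * Δ + 2 * B * (s1 * (LM - L1) + s0 * (LM - L0)) -
        2 * (1 - κ) * (s - (s0 * (ls - l0) + s1 * (ls - l1))) := by
    rw [hs]; ring
  linarith

end Pool.Agent.helper30.DN
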