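import Pool.Agent.helper65.HC.Ball
import Pool.Agent.helper30.DN.Step

/-! # The inequality for functions equal to one on a set -/

set_option autoImplicit false

namespace Pool.Agent.helper30.DN

open Finset Pool.Agent.helper65.HC

lemma delta {d : ℕ} (f g : V d → ℝ) (T : Finset (V d)) (hf : ∀ x, f x ≤ 1) (hg : ∀ x ∈ T, g x = 1)
    (lam : ℝ) (hl0 : 0 < lam) (hl1 : lam ≤ 1) :
    (1 - lam) * ∑ x, f x ^ 2 - (1 - lam) / lam * ∑ x, g x ^ 2 + (T.card : ℝ) * (1 - lam) ^ 2 / lam ≤
      ∑ x, (f x - g x) ^ 2 := by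
  have h1 : ∑ x, (f x - g x) ^ 2 = (1 - lam) * ∑ x, f x ^ 2 - (1 - lam) / lam * ∑ x, g x ^ 2 +
      ∑ x, (lam * f x - g x) ^ 2 / lam := by
    rw [Finset.mul_sum, Finset.mul_sum, ← Finset.sum_sub_distrib, ← Finset.sum_add_distrib]
    refine Finset.sum_congr rfl (fun x _ => ?_)
    field_simp
    ring
  have h2 : (T.card : ℝ) * (1 - lam) ^ 2 / lam ≤ ∑ x, (lam * f x - g x) ^ 2 / lam := by
    calc (T.card : ℝ) * (1 - lam) ^ 2 / lam = ∑ _x ∈ T, (1 - lam) ^ 2 / lam := by
          rw [Finset.sum_const, nsmul_eq_mul]; ring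
      _ ≤ ∑ x ∈ T, (lam * f x - g x) ^ 2 / lam := by
          refine Finset.sum_le_sum (fun x hx => ?_)
          rw [hg x hx]
          have h3 : lam * f x ≤ lam * 1 := mul_le_mul_of_nonneg_left (hf x) hl0.le
          have h4 : (1 - lam) ^ 2 ≤ (lam * f x - 1) ^ 2 := by nlinarith
          gcongr
      _ ≤ ∑ x, (lam * f x - g x) ^ 2 / lam := by
          refine Finset.sum_le_sum_of_subset_of_nonneg (Finset.subset_univ _) (fun x _ _ => ?_)
          positivity
  rw [h1]
  linarith

lemma mass {d : ℕ} (g : V d → ℝ) (T : Finset (V d)) (hg : ∀ x ∈ T, g x = 1) :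
    (T.card : ℝ) ≤ ∑ x, g x ^ 2 := by
  calc (T.card : ℝ) = ∑ x ∈ T, g x ^ 2 := by
        rw [Finset.sum_congr rfl (fun x hx => by rw [hg x hx])]
        simp
    _ ≤ ∑ x, g x ^ 2 := Finset.sum_le_sum_of_subset_of_nonneg (Finset.subset_univ _) (fun x _ _ => sq_nonneg _)

lemma Fn_zero (κ d M : ℝ) : Fn κ d 0 M = 0 := by
  unfold Fn; ring

lemma card_split {d : ℕ} (S : Finset (V (d + 1))) :
    S.card = (univ.filter (fun z : V d => (Fin.cons false z : V (d + 1)) ∈ S)).card +
      (univ.filter (fun z : V d => (Fin.cons true z : V (d + 1)) ∈ S)).card := by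
  have h := sum_cons (fun x : V (d + 1) => if x ∈ S then (1 : ℝ) else 0)
  have h1 : (S.card : ℝ) = ((univ.filter (fun z : V d => (Fin.cons false z : V (d + 1)) ∈ S)).card +
      (univ.filter (fun z : V d => (Fin.cons true z : V (d + 1)) ∈ S)).card : ℝ) := by
    rw [Finset.sum_ite_mem, Finset.univ_inter, Finset.sum_const, nsmul_eq_mul, mul_one] at h
    rw [h, Finset.sum_boole, Finset.sum_boole]
  exact_mod_cast h1

theorem cap (κ : ℝ) (hκ0 : 0 < κ) (hκ1 : κ ≤ 1) : ∀ (d : ℕ) (v : V d → ℝ) (S : Finset (V d)),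
    (∀ x, v x ≤ 1) → (∀ x ∈ S, v x = 1) → Fn κ d S.card (∑ x, v x ^ 2) ≤ D v
  | 0, v, S, _, hS => by
    have hD : D v = 0 := by unfold D; simp
    rw [hD]
    rcases Finset.eq_empty_or_nonempty S with h | h
    · rw [h, Finset.card_empty, Nat.cast_zero, Fn_zero]
    · obtain ⟨x, hx⟩ := h
      have h1 : S = {x} := by
        ext y
        have : y = x := Subsingleton.elim _ _
        rw [this]
        simp [hx]
      have h2 : ∑ y, v y ^ 2 = 1 := by
        have h3 : ∀ y : V 0, v y ^ 2 = 1 := by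
          intro y
          rw [Subsingleton.elim y x, hS x hx]
          norm_num
        rw [Finset.sum_congr rfl (fun y _ => h3 y)]
        simp
      rw [h1, h2, Finset.card_singleton]
      unfold Fn
      simp
  | d + 1, v, S, hv, hS => by
    obtain ⟨S0, hS0⟩ : ∃ T : Finset (V d), T = univ.filter (fun z : V d => (Fin.cons false z : V (d + 1)) ∈ S) :=
      ⟨_, rfl⟩
    obtain ⟨S1, hS1⟩ : ∃ T : Finset (V d), T = univ.filter (fun z : V d => (Fin.cons true z : V (d + 1)) ∈ S) :=
      ⟨_, rfl⟩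
    have hc := card_split S
    rw [← hS0, ← hS1] at hc
    have hv0 : ∀ z, v (Fin.cons false z) ≤ 1 := fun z => hv _
    have hv1 : ∀ z, v (Fin.cons true z) ≤ 1 := fun z => hv _
    have hg0 : ∀ z ∈ S0, v (Fin.cons false z) = 1 := by
      intro z hz
      rw [hS0, Finset.mem_filter] at hz
      exact hS _ hz.2
    have hg1 : ∀ z ∈ S1, v (Fin.cons true z) = 1 := by
      intro z hz
      rw [hS1, Finset.mem_filter] at hz
      exact hS _ hz.2
    have h0 := cap κ hκ0 hκ1 d (fun z => v (Fin.cons false z)) S0 hv0 hg0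
    have h1 := cap κ hκ0 hκ1 d (fun z => v (Fin.cons true z)) S1 hv1 hg1
    have m0 := mass (fun z => v (Fin.cons false z)) S0 hg0
    have m1 := mass (fun z => v (Fin.cons true z)) S1 hg1
    rw [D_cons, sum_cons, hc]
    push_cast
    have hΔ0 : 0 ≤ ∑ z : V d, (v (Fin.cons false z) - v (Fin.cons true z)) ^ 2 :=
      Finset.sum_nonneg (fun _ _ => sq_nonneg _)
    rcases Nat.eq_zero_or_pos (S0.card + S1.card) with hz | hz
    · have e0 : S0.card = 0 := by omega
      have e1 : S1.card = 0 := by omega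
      rw [e0, e1, Nat.cast_zero, add_zero, Fn_zero]
      have := D_nonneg (fun z => v (Fin.cons false z))
      have := D_nonneg (fun z => v (Fin.cons true z))
      linarith
    rcases le_total S1.card S0.card with hle | hle
    · have hp : 0 < S0.card := by omega
      have h3 := step κ d S0.card S1.card (∑ z, v (Fin.cons false z) ^ 2) (∑ z, v (Fin.cons true z) ^ 2)
        (∑ z : V d, (v (Fin.cons false z) - v (Fin.cons true z)) ^ 2) hκ0 hκ1 (by exact_mod_cast hle)
        (Nat.cast_nonneg _) (by exact_mod_cast hp) m0 m1 hΔ0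
        (fun lam hl0 hl1 => delta (fun z => v (Fin.cons false z)) (fun z => v (Fin.cons true z)) S1 hv0 hg1 lam hl0 hl1)
      linarith
    · have hp : 0 < S1.card := by omega
      have hsym : ∑ z : V d, (v (Fin.cons true z) - v (Fin.cons false z)) ^ 2 =
          ∑ z : V d, (v (Fin.cons false z) - v (Fin.cons true z)) ^ 2 :=
        Finset.sum_congr rfl (fun z _ => by ring)
      have h3 := step κ d S1.card S0.card (∑ z, v (Fin.cons true z) ^ 2) (∑ z, v (Fin.cons false z) ^ 2)
        (∑ z : V d, (v (Fin.cons false z) - v (Fin.cons true z)) ^ 2) hκ0 hκ1 (by exact_mod_cast hle)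
        (Nat.cast_nonneg _) (by exact_mod_cast hp) m1 m0 hΔ0
        (fun lam hl0 hl1 => by
          rw [← hsym]
          exact delta (fun z => v (Fin.cons true z)) (fun z => v (Fin.cons false z)) S0 hv1 hg0 lam hl0 hl1)
      rw [add_comm (S0.card : ℝ), add_comm (∑ z, v (Fin.cons false z) ^ 2)]
      linarith

end Pool.Agent.helper30.DN
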