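import Mathlib

/-! # The bound `4 x (1 - x) log 2 ≤ H(x)` for the binary entropy (copied from helper37/TSL/HQ.lean) -/

namespace Pool.Agent.helper30.DN

/-- the difference -/
noncomputable def dnHQ_f (x : ℝ) : ℝ := Real.binEntropy x - 4 * x * (1 - x) * Real.log 2

/-- its derivative -/
noncomputable def dnHQ_g (x : ℝ) : ℝ := Real.log (1 - x) - Real.log x - 4 * (1 - 2 * x) * Real.log 2

lemma dnHQ_df (x : ℝ) (h0 : 0 < x) (h1 : x < 1) : HasDerivAt dnHQ_f (dnHQ_g x) x := by
  have a := Real.hasDerivAt_binEntropy h0.ne' h1.ne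
  have b : HasDerivAt (fun x : ℝ => 4 * x * (1 - x) * Real.log 2) (4 * (1 - 2 * x) * Real.log 2) x := by
    have c : HasDerivAt (fun x : ℝ => 4 * x * (1 - x)) (4 * (1 - 2 * x)) x := by
      have d1 : HasDerivAt (fun x : ℝ => 4 * x) 4 x := by
        simpa using (hasDerivAt_id x).const_mul (4 : ℝ)
      have d2 : HasDerivAt (fun x : ℝ => 1 - x) (-1) x := by
        simpa using (hasDerivAt_id x).const_sub (1 : ℝ)
      have d3 := d1.mul d2
      refine d3.congr_deriv ?_
      ring
    exact c.mul_const _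
  exact a.sub b

lemma dnHQ_dg (x : ℝ) (h0 : 0 < x) (h1 : x < 1) :
    HasDerivAt dnHQ_g (8 * Real.log 2 - 1 / (x * (1 - x))) x := by
  have h2 : (1 - x) ≠ 0 := by linarith
  have a : HasDerivAt (fun x : ℝ => Real.log (1 - x)) (-1 / (1 - x)) x := by
    have d2 : HasDerivAt (fun x : ℝ => 1 - x) (-1) x := by
      simpa using (hasDerivAt_id x).const_sub (1 : ℝ)
    exact d2.log h2
  have b := Real.hasDerivAt_log h0.ne'
  have c : HasDerivAt (fun x : ℝ => 4 * (1 - 2 * x) * Real.log 2) (-8 * Real.log 2) x := by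
    have d1 : HasDerivAt (fun x : ℝ => 2 * x) 2 x := by
      simpa using (hasDerivAt_id x).const_mul (2 : ℝ)
    have d2 : HasDerivAt (fun x : ℝ => 1 - 2 * x) (-2) x := by
      simpa using d1.const_sub (1 : ℝ)
    have d3 := (d2.const_mul (4 : ℝ)).mul_const (Real.log 2)
    refine d3.congr_deriv ?_
    ring
  refine ((a.sub b).sub c).congr_deriv ?_
  field_simp
  ring

lemma dnHQ_cont : Continuous dnHQ_f := by
  unfold dnHQ_f
  fun_prop

lemma dnHQ_half (x : ℝ) (h0 : 0 ≤ x) (h1 : x ≤ 1 / 2) : 0 ≤ dnHQ_f x := by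
  have hL : 0.6931471803 < Real.log 2 := Real.log_two_gt_d9
  have hL0 : 0 < Real.log 2 := by linarith
  -- the point of inflection
  obtain ⟨c, hc0, hc1, hc⟩ : ∃ c : ℝ, 0 < c ∧ c < 1 / 2 ∧ c * (1 - c) = 1 / (8 * Real.log 2) := by
    have h8 : 1 / (8 * Real.log 2) < 1 / 4 := by
      rw [div_lt_div_iff₀ (by positivity) (by norm_num)]
      linarith
    have hcont : ContinuousOn (fun y : ℝ => y * (1 - y)) (Set.Icc 0 (1 / 2)) := by fun_prop
    have hivt := intermediate_value_Ioo (by norm_num : (0 : ℝ) ≤ 1 / 2) hcont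
    have hmem : 1 / (8 * Real.log 2) ∈ Set.Ioo ((fun y : ℝ => y * (1 - y)) 0) ((fun y : ℝ => y * (1 - y)) (1 / 2)) := by
      constructor
      · simp only [zero_mul]
        positivity
      · norm_num at h8 ⊢
        exact h8
    obtain ⟨c, hc, hc2⟩ := hivt hmem
    exact ⟨c, hc.1, hc.2, hc2⟩
  have hf0 : dnHQ_f 0 = 0 := by simp [dnHQ_f]
  have hf2 : dnHQ_f (1 / 2) = 0 := by
    unfold dnHQ_f
    rw [one_div, Real.binEntropy_two_inv]
    ring
  have hg2 : dnHQ_g (1 / 2) = 0 := by
    unfold dnHQ_g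
    norm_num
  -- right part
  have hA : ∀ y ∈ Set.Icc c (1 / 2), dnHQ_g y ≤ 0 := by
    have hmono : MonotoneOn dnHQ_g (Set.Icc c (1 / 2)) := by
      refine monotoneOn_of_deriv_nonneg (convex_Icc _ _) ?_ ?_ ?_
      · intro y hy
        exact (dnHQ_dg y (by linarith [hy.1]) (by linarith [hy.2])).continuousAt.continuousWithinAt
      · intro y hy
        rw [interior_Icc] at hy
        exact (dnHQ_dg y (by linarith [hy.1]) (by linarith [hy.2])).differentiableAt.differentiableWithinAt
      · intro y hy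
        rw [interior_Icc] at hy
        have hy0 : 0 < y := by linarith [hy.1]
        have hy1 : y < 1 := by linarith [hy.2]
        rw [(dnHQ_dg y hy0 hy1).deriv]
        have h3 : 1 / (8 * Real.log 2) ≤ y * (1 - y) := by
          rw [← hc]
          nlinarith [hy.1, hy.2]
        have h4 : 1 / (y * (1 - y)) ≤ 8 * Real.log 2 := by
          rw [div_le_iff₀ (mul_pos hy0 (by linarith))]
          rw [div_le_iff₀ (by positivity)] at h3
          linarith
        linarith
    intro y hy
    rw [← hg2]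
    exact hmono hy ⟨hc1.le, le_rfl⟩ hy.2
  have hB : ∀ y ∈ Set.Icc c (1 / 2), 0 ≤ dnHQ_f y := by
    have hanti : AntitoneOn dnHQ_f (Set.Icc c (1 / 2)) := by
      refine antitoneOn_of_deriv_nonpos (convex_Icc _ _) dnHQ_cont.continuousOn ?_ ?_
      · intro y hy
        rw [interior_Icc] at hy
        exact (dnHQ_df y (by linarith [hy.1]) (by linarith [hy.2])).differentiableAt.differentiableWithinAt
      · intro y hy
        rw [interior_Icc] at hy
        rw [(dnHQ_df y (by linarith [hy.1]) (by linarith [hy.2])).deriv]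
        exact hA y ⟨hy.1.le, hy.2.le⟩
    intro y hy
    rw [← hf2]
    exact hanti hy ⟨hc1.le, le_rfl⟩ hy.2
  rcases le_total c x with hcx | hcx
  · exact hB x ⟨hcx, h1⟩
  · -- left part
    have hconc : ConcaveOn ℝ (Set.Icc 0 c) dnHQ_f := by
      refine AntitoneOn.concaveOn_of_deriv (convex_Icc _ _) dnHQ_cont.continuousOn ?_ ?_
      · intro y hy
        rw [interior_Icc] at hy
        exact (dnHQ_df y hy.1 (by linarith [hy.2])).differentiableAt.differentiableWithinAt
      · rw [interior_Icc]
        have hanti : AntitoneOn dnHQ_g (Set.Ioo 0 c) := by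
          refine antitoneOn_of_deriv_nonpos (convex_Ioo _ _) ?_ ?_ ?_
          · intro y hy
            exact (dnHQ_dg y hy.1 (by linarith [hy.2])).continuousAt.continuousWithinAt
          · intro y hy
            rw [interior_Ioo] at hy
            exact (dnHQ_dg y hy.1 (by linarith [hy.2])).differentiableAt.differentiableWithinAt
          · intro y hy
            rw [interior_Ioo] at hy
            have hy0 : 0 < y := hy.1
            have hy1 : y < 1 := by linarith [hy.2]
            rw [(dnHQ_dg y hy0 hy1).deriv]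
            have h3 : y * (1 - y) ≤ 1 / (8 * Real.log 2) := by
              rw [← hc]
              nlinarith [hy.1, hy.2]
            have h4 : 8 * Real.log 2 ≤ 1 / (y * (1 - y)) := by
              rw [le_div_iff₀ (mul_pos hy0 (by linarith))]
              rw [le_div_iff₀ (by positivity)] at h3
              linarith
            linarith
        intro y hy z hz hyz
        rw [(dnHQ_df y hy.1 (by linarith [hy.2])).deriv, (dnHQ_df z hz.1 (by linarith [hz.2])).deriv]
        exact hanti hy hz hyz
    have h5 := hconc.min_le_of_mem_Icc (x := 0) (y := c) (z := x) ⟨le_rfl, hc0.le⟩ ⟨hc0.le, le_rfl⟩ ⟨h0, hcx⟩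
    rw [hf0] at h5
    have h6 : 0 ≤ dnHQ_f c := hB c ⟨le_rfl, hc1.le⟩
    rw [min_eq_left h6] at h5
    exact h5

theorem entropy_ge (x : ℝ) (h0 : 0 ≤ x) (h1 : x ≤ 1 / 2) :
    4 * x * (1 - x) * Real.log 2 ≤ Real.binEntropy x := by
  have := dnHQ_half x h0 h1
  unfold dnHQ_f at this
  linarith

end Pool.Agent.helper30.DN
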