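import Pool.Agent.helper30.DN.Cap

/-! # The lower bound for `d - λ` -/

set_option autoImplicit false

namespace Pool.Agent.helper30.DN

open Finset Pool.Agent.helper65.HC

/-- the real inequality behind the lower bound -/
theorem low_real (N s M γ : ℝ) (hN : 0 < N) (hs : 0 < s) (hM : s ≤ M) (hL1 : 1 ≤ Real.logb 2 (N / s))
    (hP : 4 * M ≤ 2 * γ * (N + M))
    (hC : ∀ κ : ℝ, 0 < κ → κ ≤ 1 → 2 * s * ((1 - κ) * Real.logb 2 (N / s) - 400 / κ ^ 2 * Real.log (M / s)) ≤
      2 * γ * (N + M)) :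
    s / N * (Real.logb 2 (N / s) - 1605 * Real.logb 2 (N / s) ^ (3 / 4 : ℝ)) ≤ γ := by
  obtain ⟨L, hL⟩ : ∃ L, L = Real.logb 2 (N / s) := ⟨_, rfl⟩
  rw [← hL] at hL1 hC ⊢
  have hNs : N / s = 2 ^ L := by
    rw [hL, Real.rpow_logb (by norm_num) (by norm_num) (by positivity)]
  have hB : 1 + L ≤ 2 ^ L := by
    have := one_add_mul_self_le_rpow_one_add (s := 1) (by norm_num) hL1
    rw [mul_one] at this
    rw [show (1 : ℝ) + 1 = 2 by norm_num] at this
    exact this
  have hL0 : 0 < L := by linarith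
  have hL34 : 1 ≤ L ^ (3 / 4 : ℝ) := Real.one_le_rpow hL1 (by norm_num)
  have hμ : s * (1 + L) ≤ N := by
    have : N = s * 2 ^ L := by rw [← hNs]; field_simp
    rw [this]
    exact mul_le_mul_of_nonneg_left hB hs.le
  rcases le_or_gt (s / N * L) γ with h1 | h1
  · have h2 : s / N * (L - 1605 * L ^ (3 / 4 : ℝ)) ≤ s / N * L := by
      apply mul_le_mul_of_nonneg_left _ (by positivity)
      linarith
    linarith
  have hMpos : 0 < M := by linarith
  have hγ0 : 0 < γ := by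
    by_contra h
    push Not at h
    have : 2 * γ * (N + M) ≤ 0 := by
      apply mul_nonpos_of_nonpos_of_nonneg (by linarith) (by linarith)
    linarith
  have hγN : γ * N < s * L := by
    have : s / N * L = s * L / N := by ring
    rw [this, lt_div_iff₀ hN] at h1
    exact h1
  have hγ1 : γ ≤ 1 := by
    by_contra h
    push Not at h
    have : N ≤ γ * N := by nlinarith
    nlinarith
  have hMγ : M ≤ γ * N := by nlinarith
  have hML : M / s ≤ L := by
    rw [div_le_iff₀ hs]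
    linarith
  have hMs1 : 1 ≤ M / s := by rw [le_div_iff₀ hs]; linarith
  have hlog0 : 0 ≤ Real.log (M / s) := Real.log_nonneg hMs1
  -- κ = L ^ (-1/4)
  obtain ⟨r, hr⟩ : ∃ r, r = L ^ (1 / 4 : ℝ) := ⟨_, rfl⟩
  have hr1 : 1 ≤ r := by rw [hr]; exact Real.one_le_rpow hL1 (by norm_num)
  have hr4 : r ^ 4 = L := by
    rw [hr, ← Real.rpow_natCast, ← Real.rpow_mul hL0.le]
    norm_num
  have hr3 : L ^ (3 / 4 : ℝ) = r ^ 3 := by
    rw [hr, ← Real.rpow_natCast, ← Real.rpow_mul hL0.le]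
    norm_num
  have hr0 : 0 < r := by linarith
  have hlog : Real.log (M / s) ≤ 4 * r := by
    have h2 : Real.log (M / s) ≤ Real.log L := Real.log_le_log (by linarith) hML
    have h3 : Real.log L = 4 * Real.log r := by
      rw [← hr4, Real.log_pow]
      norm_num
    have h4 : Real.log r ≤ r - 1 := Real.log_le_sub_one_of_pos hr0
    linarith
  have h2 := hC (1 / r) (by positivity) (by rw [div_le_one hr0]; exact hr1)
  have e1 : (1 - 1 / r) * L = r ^ 4 - r ^ 3 := by
    rw [← hr4]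
    field_simp
  have e2 : 400 / (1 / r) ^ 2 * Real.log (M / s) = 400 * r ^ 2 * Real.log (M / s) := by
    field_simp
  rw [e1, e2] at h2
  have h3 : 400 * r ^ 2 * Real.log (M / s) ≤ 1600 * r ^ 3 := by
    have : 400 * r ^ 2 * Real.log (M / s) ≤ 400 * r ^ 2 * (4 * r) :=
      mul_le_mul_of_nonneg_left hlog (by positivity)
    calc 400 * r ^ 2 * Real.log (M / s) ≤ 400 * r ^ 2 * (4 * r) := this
      _ = 1600 * r ^ 3 := by ring
  have h4 : s * (r ^ 4 - r ^ 3 - 1600 * r ^ 3) ≤ γ * (N + M) := by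
    have : s * (r ^ 4 - r ^ 3 - 1600 * r ^ 3) ≤ s * (r ^ 4 - r ^ 3 - 400 * r ^ 2 * Real.log (M / s)) :=
      mul_le_mul_of_nonneg_left (by linarith) hs.le
    linarith
  -- γ M ≤ 4 s
  have h5 : γ * M ≤ 4 * s := by
    have h6 : L ^ 2 ≤ 4 * 2 ^ L := by
      rcases le_or_gt L 2 with h7 | h7
      · have h8 : (1 : ℝ) ≤ 2 ^ L := Real.one_le_rpow (by norm_num) hL0.le
        nlinarith
      · have h8 := one_add_mul_self_le_rpow_one_add (s := 1) (by norm_num) (p := L / 2) (by linarith)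
        rw [mul_one, show (1 : ℝ) + 1 = 2 by norm_num] at h8
        have h9 : (2 : ℝ) ^ L = (2 ^ (L / 2)) ^ 2 := by
          rw [← Real.rpow_natCast, ← Real.rpow_mul (by norm_num)]
          norm_num
        rw [h9]
        nlinarith
    have h7 : s * L ^ 2 ≤ 4 * N := by
      have : N = s * 2 ^ L := by rw [← hNs]; field_simp
      rw [this]
      nlinarith
    -- γ M N ≤ (γ N)^2 ≤ s^2 L^2 ≤ 4 s N
    have h8 : γ * M * N ≤ (s * L) * (s * L) := by
      calc γ * M * N ≤ γ * (γ * N) * N := by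
            apply mul_le_mul_of_nonneg_right _ hN.le
            exact mul_le_mul_of_nonneg_left hMγ hγ0.le
        _ = (γ * N) * (γ * N) := by ring
        _ ≤ (s * L) * (s * L) := by
            apply mul_le_mul hγN.le hγN.le (by positivity) (by positivity)
    have h9 : γ * M * N ≤ 4 * s * N := by
      calc γ * M * N ≤ (s * L) * (s * L) := h8
        _ = s * (s * L ^ 2) := by ring
        _ ≤ s * (4 * N) := mul_le_mul_of_nonneg_left h7 hs.le
        _ = 4 * s * N := by ring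
    exact le_of_mul_le_mul_right h9 hN
  rw [hr3, ← hr4]
  have h6 : s / N * (r ^ 4 - 1605 * r ^ 3) = s * (r ^ 4 - 1605 * r ^ 3) / N := by ring
  rw [h6, div_le_iff₀ hN]
  have h7 : (1 : ℝ) ≤ r ^ 3 := one_le_pow₀ hr1
  have h8 : s * (r ^ 4 - 1605 * r ^ 3) ≤ s * (r ^ 4 - r ^ 3 - 1600 * r ^ 3) - 4 * s := by
    have : s * 1 ≤ s * r ^ 3 := mul_le_mul_of_nonneg_left h7 hs.le
    nlinarith
  nlinarith

theorem lower {d : ℕ} {U : Finset (V d)} {t : ℝ} (h : IsEig U t) (s : ℕ) (hs1 : 1 ≤ s)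
    (hs : U.card + s = 2 ^ d) (hL : 1 ≤ Real.logb 2 (2 ^ d / s)) :
    (s : ℝ) / 2 ^ d * (Real.logb 2 (2 ^ d / s) - 1605 * Real.logb 2 (2 ^ d / s) ^ (3 / 4 : ℝ)) ≤ d - t := by
  classical
  obtain ⟨f, hf, hpos, hD⟩ := eig_D h
  have hN : (0 : ℝ) < 2 ^ d := by positivity
  have hs0 : (0 : ℝ) < s := by exact_mod_cast hs1
  obtain ⟨m, hm⟩ : ∃ m : ℝ, m = (∑ x, |f x|) / 2 ^ d := ⟨_, rfl⟩
  have hsum : ∑ x, |f x| = m * 2 ^ d := by rw [hm]; field_simp
  have hm0 : 0 < m := by
    rw [hm]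
    apply div_pos _ hN
    by_contra hc
    push Not at hc
    have h0 : ∑ x, |f x| = 0 := le_antisymm hc (Finset.sum_nonneg (fun _ _ => abs_nonneg _))
    rw [Finset.sum_eq_zero_iff_of_nonneg (fun _ _ => abs_nonneg _)] at h0
    have : ∑ x, f x ^ 2 = 0 := Finset.sum_eq_zero (fun x hx => by
      have := abs_eq_zero.1 (h0 x hx)
      rw [this]; norm_num)
    linarith
  obtain ⟨v, hv⟩ : ∃ v : V d → ℝ, v = fun x => 1 - |f x| / m := ⟨_, rfl⟩
  have hv1 : ∀ x, v x ≤ 1 := by
    intro x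
    rw [hv]
    have : 0 ≤ |f x| / m := by positivity
    simp only
    linarith
  have hvS : ∀ x ∈ Uᶜ, v x = 1 := by
    intro x hx
    rw [Finset.mem_compl] at hx
    rw [hv]
    simp [hf x hx]
  have hcard : (Uᶜ).card = s := by
    rw [Finset.card_compl]
    have : Fintype.card (V d) = 2 ^ d := by simp
    rw [this]
    omega
  have hsv : ∑ x, v x = 0 := by
    rw [hv]
    simp only
    rw [Finset.sum_sub_distrib, ← Finset.sum_div, hsum]
    simp
    field_simp
    ring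
  have hv2 : ∑ x, v x ^ 2 = (∑ x, f x ^ 2) / m ^ 2 - 2 ^ d := by
    have e : ∀ x, v x ^ 2 = 1 - 2 / m * |f x| + f x ^ 2 / m ^ 2 := by
      intro x
      rw [hv]
      simp only
      rw [← sq_abs (f x)]
      field_simp
      ring
    rw [Finset.sum_congr rfl (fun x _ => e x), Finset.sum_add_distrib, Finset.sum_sub_distrib,
      ← Finset.mul_sum, ← Finset.sum_div, hsum]
    simp
    field_simp
    ring
  have hDv : D v ≤ 2 * (d - t) * (2 ^ d + ∑ x, v x ^ 2) := by
    have e : D v = D (fun x => |f x|) / m ^ 2 := by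
      unfold D
      rw [Finset.sum_div]
      refine Finset.sum_congr rfl (fun x _ => ?_)
      rw [Finset.sum_div]
      refine Finset.sum_congr rfl (fun i _ => ?_)
      rw [hv]
      simp only
      field_simp
      ring
    rw [e, hv2]
    have h1 : D (fun x => |f x|) ≤ 2 * (d - t) * ∑ x, f x ^ 2 := by
      rw [← hD]
      exact D_abs f
    have h2 : 2 * ((d : ℝ) - t) * (2 ^ d + ((∑ x, f x ^ 2) / m ^ 2 - 2 ^ d)) =
        (2 * (d - t) * ∑ x, f x ^ 2) / m ^ 2 := by ring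
    rw [h2]
    gcongr
  have hM := mass v Uᶜ hvS
  rw [hcard] at hM
  have hPo := poincare d v
  rw [hsv] at hPo
  have h0 : (4 : ℝ) * 0 ^ 2 / 2 ^ d = 0 := by simp
  rw [h0, add_zero] at hPo
  refine low_real (2 ^ d) s (∑ x, v x ^ 2) (d - t) hN hs0 hM hL (by linarith) ?_
  intro κ hκ0 hκ1
  have h1 := cap κ hκ0 hκ1 d v Uᶜ hv1 hvS
  rw [hcard] at h1
  unfold Fn at h1
  have h2 : Real.logb 2 (2 ^ d / s) = d - Real.logb 2 s := by
    rw [Real.logb_div (by positivity) (by positivity), Real.logb_pow]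
    simp
  rw [h2]
  linarith

end Pool.Agent.helper30.DN
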