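import Pool.Agent.helper16.DH.B
import Pool.Agent.helper98.DNX.Low

/-! # The explicit lower bound for `d - λ` (from the functional inequality of helper16) -/

set_option autoImplicit false

namespace Pool.Agent.helper30.DN

open Finset Pool.Agent.helper65.HC

theorem low2_cube (L : ℝ) (hL : 3 ≤ L) : L ^ 3 ≤ 8 * 2 ^ L := by
  obtain ⟨y, hy⟩ : ∃ y, y = L / 3 := ⟨_, rfl⟩
  have hL3 : L = 3 * y := by rw [hy]; ring
  have hy1 : 1 ≤ y := by rw [hy]; linarith
  have h1 : 3 / 2 * y ≤ (2 : ℝ) ^ y := by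
    rcases le_or_gt y 2 with h | h
    · have h2 := one_add_mul_self_le_rpow_one_add (s := 1) (by norm_num) hy1
      rw [mul_one, show (1 : ℝ) + 1 = 2 by norm_num] at h2
      linarith
    · have h2 := one_add_mul_self_le_rpow_one_add (s := 1) (by norm_num) (p := y / 2) (by linarith)
      rw [mul_one, show (1 : ℝ) + 1 = 2 by norm_num] at h2
      have h3 : (2 : ℝ) ^ y = (2 ^ (y / 2)) ^ 2 := by
        rw [← Real.rpow_natCast, ← Real.rpow_mul (by norm_num)]
        norm_num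
      rw [h3]
      nlinarith
  have h2 : (2 : ℝ) ^ L = (2 ^ y) ^ 3 := by
    rw [hL3, ← Real.rpow_natCast, ← Real.rpow_mul (by norm_num)]
    congr 1
    push_cast
    ring
  have h3 : (3 / 2 * y) ^ 3 ≤ ((2 : ℝ) ^ y) ^ 3 := pow_le_pow_left₀ (by positivity) h1 3
  rw [h2, hL3]
  nlinarith

theorem low2_five (L : ℝ) (h0 : 0 ≤ L) (hY : 0 < L - 2 * Real.logb 2 (L + 1)) : 5 < L := by
  by_contra hcon
  push Not at hcon
  have h1 : (32 : ℝ) ^ (L / 10) ≤ 1 + L / 10 * 31 := by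
    have h2 := rpow_one_add_le_one_add_mul_self (s := (31 : ℝ)) (by norm_num) (p := L / 10) (by positivity)
      (by linarith)
    rw [show (1 : ℝ) + 31 = 32 by norm_num] at h2
    exact h2
  -- a better bound with exponent L / 5 and base 32 ^ (1/2) <= 6
  have h3 : (6 : ℝ) ^ (L / 5) ≤ 1 + L / 5 * 5 := by
    have h2 := rpow_one_add_le_one_add_mul_self (s := (5 : ℝ)) (by norm_num) (p := L / 5) (by positivity)
      (by linarith)
    rw [show (1 : ℝ) + 5 = 6 by norm_num] at h2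
    exact h2
  have h4 : (2 : ℝ) ^ (L / 2) ≤ 6 ^ (L / 5) := by
    have h5 : (2 : ℝ) ^ (L / 2) = (32 : ℝ) ^ (L / 10) := by
      rw [show (32 : ℝ) = 2 ^ (5 : ℝ) by norm_num, ← Real.rpow_mul (by norm_num)]
      congr 1
      ring
    have h6 : (6 : ℝ) ^ (L / 5) = (36 : ℝ) ^ (L / 10) := by
      rw [show (36 : ℝ) = 6 ^ (2 : ℝ) by norm_num, ← Real.rpow_mul (by norm_num)]
      congr 1
      ring
    rw [h5, h6]
    exact Real.rpow_le_rpow (by norm_num) (by norm_num) (by positivity)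
  have h5 : (2 : ℝ) ^ (L / 2) ≤ L + 1 := by linarith
  have h6 : L / 2 ≤ Real.logb 2 (L + 1) := by
    rw [Real.le_logb_iff_rpow_le (by norm_num) (by linarith)]
    exact h5
  linarith

/-- the real inequality behind the explicit lower bound -/
theorem low2_real (N s M γ : ℝ) (hN : 0 < N) (hs : 0 < s) (hM : s ≤ M) (hL1 : 1 ≤ Real.logb 2 (N / s))
    (hP : 4 * M ≤ 2 * γ * (N + M))
    (hC : ∀ e : ℝ, 0 < e → e ≤ 1 → (1 - e) * s * Real.logb 2 (e / (1 + e) * (N / M)) ≤ γ * (N + M)) :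
    s / N * (Real.logb 2 (N / s) - 2 * Real.logb 2 (Real.logb 2 (N / s) + 1)) ≤ γ := by
  obtain ⟨L, hL⟩ : ∃ L, L = Real.logb 2 (N / s) := ⟨_, rfl⟩
  rw [← hL] at hL1 ⊢
  have hNs : N / s = 2 ^ L := by
    rw [hL, Real.rpow_logb (by norm_num) (by norm_num) (by positivity)]
  have hNe : N = s * 2 ^ L := by rw [← hNs]; field_simp
  obtain ⟨Y, hY⟩ : ∃ Y, Y = L - 2 * Real.logb 2 (L + 1) := ⟨_, rfl⟩
  rw [← hY]
  by_contra hcon
  push Not at hcon
  have hMpos : 0 < M := by linarith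
  have hγ0 : 0 < γ := by
    by_contra h
    push Not at h
    have : 2 * γ * (N + M) ≤ 0 := by
      apply mul_nonpos_of_nonpos_of_nonneg (by linarith) (by linarith)
    linarith
  have hY0 : 0 < Y := by
    by_contra h
    push Not at h
    have : s / N * Y ≤ 0 := mul_nonpos_of_nonneg_of_nonpos (by positivity) h
    linarith
  have hL5 : 5 < L := low2_five L (by linarith) (by rw [← hY]; exact hY0)
  have hB : 1 + L ≤ 2 ^ L := by
    have := one_add_mul_self_le_rpow_one_add (s := 1) (by norm_num) hL1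
    rw [mul_one] at this
    rw [show (1 : ℝ) + 1 = 2 by norm_num] at this
    exact this
  have hA : 5 / 2 ≤ Real.logb 2 (L + 1) := by
    rw [Real.le_logb_iff_rpow_le (by norm_num) (by linarith)]
    have h1 : (2 : ℝ) ^ (5 / 2 : ℝ) ≤ 6 := by
      have h2 : (2 : ℝ) ^ (5 / 2 : ℝ) = (32 : ℝ) ^ (1 / 2 : ℝ) := by
        rw [show (32 : ℝ) = 2 ^ (5 : ℝ) by norm_num, ← Real.rpow_mul (by norm_num)]
        norm_num
      have h3 : (6 : ℝ) = (36 : ℝ) ^ (1 / 2 : ℝ) := by
        rw [show (36 : ℝ) = 6 ^ (2 : ℝ) by norm_num, ← Real.rpow_mul (by norm_num)]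
        norm_num
      rw [h2, h3]
      exact Real.rpow_le_rpow (by norm_num) (by norm_num) (by norm_num)
    linarith
  have hγN : γ * N < s * Y := by
    have : s / N * Y = s * Y / N := by ring
    rw [this, lt_div_iff₀ hN] at hcon
    exact hcon
  have hYL : Y ≤ L - 5 := by rw [hY]; linarith
  have hγ1 : γ < 1 := by
    by_contra h
    push Not at h
    have h1 : N ≤ γ * N := by nlinarith
    have h2 : s * Y ≤ s * 2 ^ L := mul_le_mul_of_nonneg_left (by linarith) hs.le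
    linarith
  have hMγ : M * (2 - γ) ≤ γ * N := by nlinarith
  have h2γ : 0 < 2 - γ := by linarith
  have hNM : (N + M) * (2 - γ) ≤ 2 * N := by nlinarith
  -- the logarithm
  have hL0 : 0 < L := by linarith
  have hlog : Y + (1 - γ) ≤ Real.logb 2 (1 / L / (1 + 1 / L) * (N / M)) := by
    have e1 : 1 / L / (1 + 1 / L) = 1 / (L + 1) := by field_simp
    rw [e1, Real.le_logb_iff_rpow_le (by norm_num) (by positivity), Real.rpow_add (by norm_num)]
    have h1 : (2 : ℝ) ^ (1 - γ) ≤ 2 - γ := by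
      have h2 := rpow_one_add_le_one_add_mul_self (s := (1 : ℝ)) (by norm_num) (p := 1 - γ) (by linarith)
        (by linarith)
      rw [show (1 : ℝ) + 1 = 2 by norm_num] at h2
      linarith
    have h3 : (2 : ℝ) ^ Y = 2 ^ L / (L + 1) ^ 2 := by
      rw [hY, Real.rpow_sub (by norm_num)]
      congr 1
      rw [mul_comm, Real.rpow_mul (by norm_num), Real.rpow_logb (by norm_num) (by norm_num) (by linarith)]
      norm_num
    rw [h3]
    have h4 : 1 / (L + 1) * (N / M) = N / (M * (L + 1)) := by field_simp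
    rw [h4]
    have h5 : (2 : ℝ) ^ L / (L + 1) ^ 2 * 2 ^ (1 - γ) ≤ 2 ^ L / (L + 1) ^ 2 * (2 - γ) :=
      mul_le_mul_of_nonneg_left h1 (by positivity)
    refine h5.trans ?_
    rw [div_mul_eq_mul_div, div_le_div_iff₀ (by positivity) (by positivity)]
    -- 2^L (2-γ) M (L+1) ≤ N (L+1)^2
    have h6 : M * (2 - γ) ≤ s * (L + 1) := by
      have : s * Y ≤ s * (L + 1) := mul_le_mul_of_nonneg_left (by linarith) hs.le
      linarith
    have h7 : (0 : ℝ) < 2 ^ L := by positivity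
    calc 2 ^ L * (2 - γ) * (M * (L + 1)) = (M * (2 - γ)) * (2 ^ L * (L + 1)) := by ring
      _ ≤ (s * (L + 1)) * (2 ^ L * (L + 1)) := mul_le_mul_of_nonneg_right h6 (by positivity)
      _ = N * (L + 1) ^ 2 := by rw [hNe]; ring
  have hC1 := hC (1 / L) (by positivity) (by rw [div_le_one hL0]; linarith)
  have hε : 0 < 1 / L := by positivity
  have hε5 : 1 / L ≤ 1 / 5 := by
    rw [div_le_div_iff₀ hL0 (by norm_num)]
    linarith
  have h1 : (1 - 1 / L) * s * (Y + (1 - γ)) ≤ γ * (N + M) :=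
    (mul_le_mul_of_nonneg_left hlog (mul_nonneg (by linarith) hs.le)).trans hC1
  have h2 : (1 - 1 / L) * s * (Y + (1 - γ)) * (2 - γ) ≤ 2 * (γ * N) := by
    calc (1 - 1 / L) * s * (Y + (1 - γ)) * (2 - γ) ≤ γ * (N + M) * (2 - γ) :=
          mul_le_mul_of_nonneg_right h1 h2γ.le
      _ = γ * ((N + M) * (2 - γ)) := by ring
      _ ≤ γ * (2 * N) := mul_le_mul_of_nonneg_left hNM hγ0.le
      _ = 2 * (γ * N) := by ring
  have h3 : (1 - 1 / L) * (Y + (1 - γ)) * (2 - γ) < 2 * Y := by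
    have h4 : s * ((1 - 1 / L) * (Y + (1 - γ)) * (2 - γ)) < s * (2 * Y) := by
      calc s * ((1 - 1 / L) * (Y + (1 - γ)) * (2 - γ)) = (1 - 1 / L) * s * (Y + (1 - γ)) * (2 - γ) := by ring
        _ ≤ 2 * (γ * N) := h2
        _ < 2 * (s * Y) := by linarith
        _ = s * (2 * Y) := by ring
    exact lt_of_mul_lt_mul_left h4 hs.le
  -- (1 - 1/L) (Y + 1 - γ) ≥ Y + 4 / L - γ
  have h4 : Y + 4 * (1 / L) - γ ≤ (1 - 1 / L) * (Y + (1 - γ)) := by
    have h5 : 1 / L * L = 1 := by field_simp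
    have h6 : 1 / L * Y ≤ 1 / L * (L - 5) := mul_le_mul_of_nonneg_left hYL hε.le
    have h7 : 0 < 1 / L * γ := by positivity
    nlinarith
  have h5 : (Y + 4 * (1 / L) - γ) * (2 - γ) < 2 * Y :=
    lt_of_le_of_lt (mul_le_mul_of_nonneg_right h4 h2γ.le) h3
  -- γ (Y + 3) ≤ γ L ≤ 8 / L
  have h6 : γ * (Y + 3) < 8 * (1 / L) := by
    have h7 := low2_cube L (by linarith)
    have h8 : γ * N * L ^ 2 < 8 * N := by
      have h9 : γ * N < s * L := by
        have : s * Y ≤ s * L := mul_le_mul_of_nonneg_left (by linarith) hs.le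
        linarith
      calc γ * N * L ^ 2 < s * L * L ^ 2 := by
            apply mul_lt_mul_of_pos_right h9 (by positivity)
        _ = s * L ^ 3 := by ring
        _ ≤ s * (8 * 2 ^ L) := mul_le_mul_of_nonneg_left h7 hs.le
        _ = 8 * N := by rw [hNe]; ring
    have h9 : γ * L ^ 2 < 8 := by
      have : (γ * L ^ 2) * N < 8 * N := by linarith
      exact lt_of_mul_lt_mul_right this hN.le
    have h10 : γ * L < 8 * (1 / L) := by
      have h11 : 8 * (1 / L) = 8 / L := by ring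
      rw [h11, lt_div_iff₀ hL0]
      calc γ * L * L = γ * L ^ 2 := by ring
        _ < 8 := h9
    have h11 : γ * (Y + 3) ≤ γ * L := mul_le_mul_of_nonneg_left (by linarith) hγ0.le
    linarith
  have h7 : 0 < γ * γ := by positivity
  have h8 : γ * (1 / L) ≤ γ * (1 / 5) := mul_le_mul_of_nonneg_left hε5 hγ0.le
  nlinarith

lemma D_pos {d : ℕ} (v : V d → ℝ) : D (fun x => max (v x) 0) ≤ D v := by
  unfold D
  refine Finset.sum_le_sum fun x _ => Finset.sum_le_sum fun i _ => ?_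
  exact sq_le_sq.2 (abs_max_sub_max_le_abs _ _ _)

theorem lower2 {d : ℕ} {U : Finset (V d)} {t : ℝ} (h : IsEig U t) (s : ℕ) (hs1 : 1 ≤ s)
    (hs : U.card + s = 2 ^ d) (hL : 1 ≤ Real.logb 2 (2 ^ d / s)) :
    (s : ℝ) / 2 ^ d * (Real.logb 2 (2 ^ d / s) - 2 * Real.logb 2 (Real.logb 2 (2 ^ d / s) + 1)) ≤ d - t := by
  classical
  obtain ⟨v, hv1, hvS, hP, hD⟩ := Pool.Agent.helper98.DNX.exists_v h
  have hN : (0 : ℝ) < 2 ^ d := by positivity
  have hs0 : (0 : ℝ) < s := by exact_mod_cast hs1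
  have hcard : (Uᶜ).card = s := by
    rw [Finset.card_compl]
    have : Fintype.card (V d) = 2 ^ d := by simp
    rw [this]
    omega
  have hM : (s : ℝ) ≤ ∑ x, v x ^ 2 := by
    have h1 : ∑ x ∈ Uᶜ, v x ^ 2 = (s : ℝ) := by
      rw [Finset.sum_congr rfl (fun x hx => by
        rw [hvS x (Finset.mem_compl.1 hx), one_pow]) (g := fun _ => (1 : ℝ))]
      rw [Finset.sum_const, hcard, nsmul_eq_mul, mul_one]
    rw [← h1]
    exact Finset.sum_le_sum_of_subset_of_nonneg (Finset.subset_univ _) fun x _ _ => sq_nonneg _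
  refine low2_real (2 ^ d) s (∑ x, v x ^ 2) (d - t) hN hs0 hM hL hP ?_
  intro e he he1
  have hne : (Uᶜ).Nonempty := by
    rw [← Finset.card_pos, hcard]
    omega
  have h1 := Pool.Agent.helper16.DH.functional d (fun x => max (v x) 0) (fun x => le_max_right _ _)
    (fun x => max_le (hv1 x) zero_le_one) e he he1 Uᶜ (fun x hx => by
      rw [hvS x (Finset.mem_compl.1 hx)]
      norm_num) hne
  rw [hcard] at h1
  have hl : 0 < Real.log 2 := Real.log_pos (by norm_num)
  have h2 : ∑ x, (max (v x) 0) ^ 2 ≤ ∑ x, v x ^ 2 := by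
    refine Finset.sum_le_sum fun x _ => ?_
    rcases le_total (v x) 0 with h | h
    · rw [max_eq_right h]
      have := sq_nonneg (v x)
      linarith
    · rw [max_eq_left h]
  have h3 : (0 : ℝ) < ∑ x, (max (v x) 0) ^ 2 := by
    obtain ⟨x, hx⟩ := hne
    refine lt_of_lt_of_le ?_ (Finset.single_le_sum (f := fun x => (max (v x) 0) ^ 2)
      (fun x _ => sq_nonneg _) (Finset.mem_univ x))
    rw [hvS x (Finset.mem_compl.1 hx)]
    norm_num
  have h4 : Real.log (e / (1 + e) * (2 ^ d / ∑ x, v x ^ 2)) ≤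
      Real.log (e / (1 + e) * (2 ^ d / ∑ x, (max (v x) 0) ^ 2)) := by
    have h5 : (0 : ℝ) < ∑ x, v x ^ 2 := by linarith
    apply Real.log_le_log (by positivity)
    apply mul_le_mul_of_nonneg_left _ (by positivity)
    exact div_le_div_of_nonneg_left hN.le h3 h2
  have h5 : 2 * (1 - e) * s * Real.log (e / (1 + e) * (2 ^ d / ∑ x, v x ^ 2)) ≤
      Real.log 2 * (2 * (d - t) * (2 ^ d + ∑ x, v x ^ 2)) := by
    have h6 : 0 ≤ 2 * (1 - e) * (s : ℝ) := mul_nonneg (by linarith) hs0.le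
    calc 2 * (1 - e) * s * Real.log (e / (1 + e) * (2 ^ d / ∑ x, v x ^ 2))
        ≤ 2 * (1 - e) * s * Real.log (e / (1 + e) * (2 ^ d / ∑ x, (max (v x) 0) ^ 2)) :=
          mul_le_mul_of_nonneg_left h4 h6
      _ ≤ Real.log 2 * D (fun x => max (v x) 0) := h1
      _ ≤ Real.log 2 * (2 * (d - t) * (2 ^ d + ∑ x, v x ^ 2)) :=
          mul_le_mul_of_nonneg_left ((D_pos v).trans hD) hl.le
  have h6 : Real.logb 2 (e / (1 + e) * (2 ^ d / ∑ x, v x ^ 2)) =
      Real.log (e / (1 + e) * (2 ^ d / ∑ x, v x ^ 2)) / Real.log 2 := rfl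
  rw [h6]
  have h7 : (1 - e) * (s : ℝ) * (Real.log (e / (1 + e) * (2 ^ d / ∑ x, v x ^ 2)) / Real.log 2) =
      ((1 - e) * s * Real.log (e / (1 + e) * (2 ^ d / ∑ x, v x ^ 2))) / Real.log 2 := by ring
  rw [h7, div_le_iff₀ hl]
  linarith

end Pool.Agent.helper30.DN
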