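import Pool.Agent.helper65.HC.Ball

/-! # Binary initial segments: the upper bound for `d - λ` -/

set_option autoImplicit false

namespace Pool.Agent.helper30.DN

open Finset Pool.Agent.helper65.HC

/-- the indicator function of the initial segment of `s` points -/
noncomputable def ind : (d : ℕ) → ℕ → V d → ℝ
  | 0, s, _ => if 1 ≤ s then 1 else 0
  | d + 1, s, x => ind d (if x 0 then s / 2 else (s + 1) / 2) (fun i => x i.succ)

lemma ind_false {d : ℕ} (s : ℕ) (z : V d) : ind (d + 1) s (Fin.cons false z) = ind d ((s + 1) / 2) z := by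
  simp [ind]

lemma ind_true {d : ℕ} (s : ℕ) (z : V d) : ind (d + 1) s (Fin.cons true z) = ind d (s / 2) z := by
  simp [ind]

lemma ind_01 : ∀ (d s : ℕ) (x : V d), ind d s x = 0 ∨ ind d s x = 1
  | 0, s, x => by
    unfold ind
    split_ifs
    · right; rfl
    · left; rfl
  | d + 1, s, x => by
    unfold ind
    exact ind_01 d _ _

lemma ind_mono : ∀ (d s s' : ℕ) (x : V d), s ≤ s' → ind d s x ≤ ind d s' x
  | 0, s, s', x, h => by
    unfold ind
    split_ifs with h1 h2
    · exact le_rfl
    · omega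
    · norm_num
    · exact le_rfl
  | d + 1, s, s', x, h => by
    unfold ind
    apply ind_mono
    split_ifs
    · omega
    · omega

lemma ind_zero : ∀ (d : ℕ) (x : V d), ind d 0 x = 0
  | 0, x => by simp [ind]
  | d + 1, x => by
    unfold ind
    have : (if x 0 then 0 / 2 else (0 + 1) / 2 : ℕ) = 0 := by split_ifs <;> rfl
    rw [this]
    exact ind_zero d _

lemma ind_sum : ∀ (d s : ℕ), s ≤ 2 ^ d → ∑ x, ind d s x = s
  | 0, s, h => by
    have : s = 0 ∨ s = 1 := by
      rw [pow_zero] at h
      omega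
    rcases this with h | h <;> subst h <;> simp [ind]
  | d + 1, s, h => by
    rw [pow_succ] at h
    rw [sum_cons]
    simp only [ind_false, ind_true]
    rw [ind_sum d _ (by omega), ind_sum d _ (by omega)]
    have : (s + 1) / 2 + s / 2 = s := by omega
    exact_mod_cast this

lemma ind_diff (d s : ℕ) (h : s < 2 ^ d) : ∑ x, (ind d (s + 1) x - ind d s x) ^ 2 = 1 := by
  have e : ∀ x, (ind d (s + 1) x - ind d s x) ^ 2 = ind d (s + 1) x - ind d s x := by
    intro x
    have h1 := ind_mono d s (s + 1) x (by omega)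
    rcases ind_01 d s x with h2 | h2 <;> rcases ind_01 d (s + 1) x with h3 | h3
    · rw [h2, h3]; norm_num
    · rw [h2, h3]; norm_num
    · rw [h2, h3] at h1; norm_num at h1
    · rw [h2, h3]; norm_num
  rw [Finset.sum_congr rfl (fun x _ => e x), Finset.sum_sub_distrib, ind_sum d _ (by omega),
    ind_sum d _ (by omega)]
  push_cast
  ring

lemma log_conv (t : ℝ) (ht : 0 ≤ t) :
    (2 * t + 1) * (Real.logb 2 (2 * t + 1) - 1) ≤ t * Real.logb 2 t + (t + 1) * Real.logb 2 (t + 1) := by
  have hl2 : 0 < Real.log 2 := Real.log_pos (by norm_num)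
  have hx : t ∈ Set.Ici (0 : ℝ) := ht
  have hy : t + 1 ∈ Set.Ici (0 : ℝ) := by
    show 0 ≤ t + 1
    linarith
  have h := (Real.convexOn_mul_log).2 hx hy (show (0 : ℝ) ≤ 1 / 2 by norm_num) (show (0 : ℝ) ≤ 1 / 2 by norm_num)
    (show (1 / 2 : ℝ) + 1 / 2 = 1 by norm_num)
  simp only [smul_eq_mul] at h
  have e : 1 / 2 * t + 1 / 2 * (t + 1) = (2 * t + 1) / 2 := by ring
  rw [e, Real.log_div (by positivity) (by norm_num)] at h
  unfold Real.logb
  have e1 : (2 * t + 1) * (Real.log (2 * t + 1) / Real.log 2 - 1) =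
      (2 * t + 1) * (Real.log (2 * t + 1) - Real.log 2) / Real.log 2 := by
    field_simp
  have e2 : t * (Real.log t / Real.log 2) + (t + 1) * (Real.log (t + 1) / Real.log 2) =
      (t * Real.log t + (t + 1) * Real.log (t + 1)) / Real.log 2 := by ring
  rw [e1, e2]
  gcongr
  linarith

lemma ind_D : ∀ (d s : ℕ), 1 ≤ s → s ≤ 2 ^ d → D (ind d s) ≤ 2 * (s * (d + 2 - Real.logb 2 s) - 1)
  | 0, s, h1, h2 => by
    have hD : D (ind 0 s) = 0 := by unfold D; simp
    have hs : s = 1 := by rw [pow_zero] at h2; omega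
    rw [hD, hs]
    norm_num
  | d + 1, s, h1, h2 => by
    rw [pow_succ] at h2
    rw [D_cons]
    simp only [ind_false, ind_true]
    obtain ⟨t, ht | ht⟩ : ∃ t, s = 2 * t ∨ s = 2 * t + 1 := ⟨s / 2, by omega⟩
    · have e1 : (s + 1) / 2 = t := by omega
      have e2 : s / 2 = t := by omega
      rw [e1, e2]
      have ht1 : 1 ≤ t := by omega
      have h3 := ind_D d t ht1 (by omega)
      have h4 : ∑ z : V d, (ind d t z - ind d t z) ^ 2 = 0 := by simp
      have ht0 : (0 : ℝ) < t := by exact_mod_cast ht1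
      rw [h4, ht]
      push_cast
      rw [Real.logb_mul (by norm_num) (by positivity), Real.logb_self_eq_one (by norm_num)]
      linarith
    · have e1 : (s + 1) / 2 = t + 1 := by omega
      have e2 : s / 2 = t := by omega
      rw [e1, e2]
      have h3 := ind_D d (t + 1) (by omega) (by omega)
      rw [ind_diff d t (by omega)]
      rcases Nat.eq_zero_or_pos t with h0 | h0
      · subst h0
        have hz : D (fun z => ind d 0 z) = 0 := by
          unfold D
          simp [ind_zero]
        rw [hz, ht]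
        rw [zero_add] at h3 ⊢
        norm_num at h3 ⊢
        linarith
      · have h4 := ind_D d t h0 (by omega)
        have h5 := log_conv t (Nat.cast_nonneg _)
        have h6 : D (fun z => ind d t z) = D (ind d t) := rfl
        have h7 : D (fun z => ind d (t + 1) z) = D (ind d (t + 1)) := rfl
        rw [h6, h7, ht]
        push_cast at h3 ⊢
        nlinarith

theorem seg_upper (d s : ℕ) (h1 : 1 ≤ s) (h2 : s < 2 ^ d) :
    (d : ℝ) - lam d (2 ^ d - s) ≤ s * (d + 2 - Real.logb 2 s) / (2 ^ d - s) := by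
  classical
  have hs : ((2 : ℝ) ^ d - s) = ((2 ^ d - s : ℕ) : ℝ) := by
    rw [Nat.cast_sub h2.le]
    push_cast
    ring
  have hm0 : (0 : ℝ) < 2 ^ d - s := by
    have : (s : ℝ) < 2 ^ d := by exact_mod_cast h2
    linarith
  obtain ⟨f, hf⟩ : ∃ f : V d → ℝ, f = fun x => 1 - ind d s x := ⟨_, rfl⟩
  obtain ⟨U, hU⟩ : ∃ U : Finset (V d), U = univ.filter (fun x => ind d s x = 0) := ⟨_, rfl⟩
  have hsum : ∑ x, f x = 2 ^ d - s := by
    rw [hf]
    simp only
    rw [Finset.sum_sub_distrib, ind_sum d s h2.le]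
    simp
  have hf2 : ∑ x, f x ^ 2 = 2 ^ d - s := by
    rw [← hsum]
    refine Finset.sum_congr rfl (fun x _ => ?_)
    rw [hf]
    simp only
    rcases ind_01 d s x with h | h <;> rw [h] <;> norm_num
  have hcard : U.card = 2 ^ d - s := by
    have h3 : (U.card : ℝ) = ((2 ^ d - s : ℕ) : ℝ) := by
      rw [← hs, ← hsum, hU, Finset.card_filter]
      push_cast
      refine Finset.sum_congr rfl (fun x _ => ?_)
      rw [hf]
      simp only
      rcases ind_01 d s x with h | h <;> rw [h] <;> norm_num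
    exact_mod_cast h3
  have hD : D f = D (ind d s) := by
    unfold D
    refine Finset.sum_congr rfl (fun x _ => Finset.sum_congr rfl (fun i _ => ?_))
    rw [hf]
    ring
  have h3 := ind_D d s h1 h2.le
  have h4 := D_eq f
  have h5 : (d : ℝ) - s * (d + 2 - Real.logb 2 s) / (2 ^ d - s) ≤ lam d (2 ^ d - s) := by
    refine lam_ge U hcard f ?_ (by rw [hf2]; exact hm0) _ ?_
    · intro x hx
      rw [hU, Finset.mem_filter] at hx
      rcases ind_01 d s x with h | h
      · exact absurd ⟨Finset.mem_univ _, h⟩ hx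
      · rw [hf]; simp [h]
    · rw [hf2, sub_mul, div_mul_cancel₀ _ hm0.ne']
      rw [hD, hf2] at h4
      linarith
  linarith

end Pool.Agent.helper30.DN
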