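import Pool.Agent.helper30.DN.Low
import Pool.Agent.helper30.DN.Seg

/-! # First order asymptotics of `d - λ_d(m)` for `m ≥ 2^(d-1)` -/

set_option autoImplicit false

namespace Pool.Agent.helper30.DN

open Finset Pool.Agent.helper65.HC

/-- the density of the complement -/
noncomputable def mu (d m : ℕ) : ℝ := 1 - (m : ℝ) / 2 ^ d

theorem main (d m : ℕ) (h1 : 2 ^ d ≤ 2 * m) (h2 : m < 2 ^ d) :
    |(d : ℝ) - lam d m - mu d m * Real.logb 2 (1 / mu d m)| ≤
      1605 * (mu d m * Real.logb 2 (1 / mu d m) ^ (3 / 4 : ℝ)) := by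
  obtain ⟨s, hs⟩ : ∃ s, s = 2 ^ d - m := ⟨_, rfl⟩
  have hs1 : 1 ≤ s := by omega
  have hm : m = 2 ^ d - s := by omega
  have hs2 : s < 2 ^ d := by omega
  have hss : 2 * s ≤ 2 ^ d := by omega
  have hN : (0 : ℝ) < 2 ^ d := by positivity
  have hs0 : (0 : ℝ) < s := by exact_mod_cast hs1
  have hmr : (m : ℝ) = 2 ^ d - s := by
    rw [hm, Nat.cast_sub hs2.le]
    push_cast
    ring
  have hmu : mu d m = s / 2 ^ d := by
    unfold mu
    rw [hmr]
    field_simp
    ring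
  have hinv : 1 / mu d m = 2 ^ d / s := by
    rw [hmu, one_div, inv_div]
  obtain ⟨L, hL⟩ : ∃ L, L = Real.logb 2 (1 / mu d m) := ⟨_, rfl⟩
  have hss' : (2 : ℝ) * s ≤ 2 ^ d := by exact_mod_cast hss
  have hL' : L = Real.logb 2 (2 ^ d / s) := by rw [hL, hinv]
  have hL1 : 1 ≤ L := by
    rw [hL', Real.le_logb_iff_rpow_le (by norm_num) (by positivity), Real.rpow_one, le_div_iff₀ hs0]
    exact hss'
  have hLd : L = d - Real.logb 2 s := by
    rw [hL', Real.logb_div (by positivity) (by positivity), Real.logb_pow]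
    simp
  have hR : 1 ≤ L ^ (3 / 4 : ℝ) := Real.one_le_rpow hL1 (by norm_num)
  have hlow : (s : ℝ) / 2 ^ d * (L - 1605 * L ^ (3 / 4 : ℝ)) ≤ d - lam d m := by
    obtain ⟨⟨U, hU, ht⟩, _⟩ := lam_isGreatest d m (by
      have : 0 < 2 ^ d := by positivity
      omega) h2.le
    have h3 := lower ht.1 s hs1 (by rw [hU]; omega) (by rw [← hL']; exact hL1)
    rw [← hL'] at h3
    exact h3
  have hup : (d : ℝ) - lam d m ≤ (s : ℝ) / 2 ^ d * (L + 1605 * L ^ (3 / 4 : ℝ)) := by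
    have h3 := seg_upper d s hs1 hs2
    rw [← hm] at h3
    refine h3.trans ?_
    have hpos : (0 : ℝ) < 2 ^ d - s := by
      have : (s : ℝ) < 2 ^ d := by exact_mod_cast hs2
      linarith
    rw [div_le_iff₀ hpos]
    -- s (L + 2) ≤ s / 2^d (L + 1605 R) (2^d - s)
    have e : (s : ℝ) / 2 ^ d * (L + 1605 * L ^ (3 / 4 : ℝ)) * (2 ^ d - s) =
        s * ((L + 1605 * L ^ (3 / 4 : ℝ)) * (1 - s / 2 ^ d)) := by
      field_simp
    rw [e]
    have h4 : (d : ℝ) + 2 - Real.logb 2 s = L + 2 := by rw [hLd]; ring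
    rw [h4]
    apply mul_le_mul_of_nonneg_left _ hs0.le
    have h5 : (s : ℝ) / 2 ^ d ≤ 1 / 2 := by
      rw [div_le_iff₀ hN]
      linarith
    have h6 : (s : ℝ) / 2 ^ d * L ≤ 1 := by
      have h7 : 1 + L ≤ 2 ^ L := by
        have := one_add_mul_self_le_rpow_one_add (s := 1) (by norm_num) hL1
        rw [mul_one, show (1 : ℝ) + 1 = 2 by norm_num] at this
        exact this
      have h8 : (2 : ℝ) ^ L = 2 ^ d / s := by
        rw [hL', Real.rpow_logb (by norm_num) (by norm_num) (by positivity)]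
      rw [h8] at h7
      have h9 : (s : ℝ) / 2 ^ d * L ≤ (s : ℝ) / 2 ^ d * (2 ^ d / s) :=
        mul_le_mul_of_nonneg_left (by linarith) (by positivity)
      have h10 : (s : ℝ) / 2 ^ d * (2 ^ d / s) = 1 := by field_simp
      linarith
    generalize (s : ℝ) / 2 ^ d = μ at h5 h6 ⊢
    generalize L ^ (3 / 4 : ℝ) = R at hR ⊢
    nlinarith
  rw [← hL, hmu, abs_le]
  constructor
  · nlinarith
  · nlinarith

end Pool.Agent.helper30.DN
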